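import Pool.Agent.H550R2.Iso.Conv

/-!
# Length-nondecreasing reductions, `p`-isomorphism and `P = PSPACE`

The implication asked about in Q1 is equivalent to `P = PSPACE`. The direction from `P = PSPACE`
to Q1 is known (Fenner, Kurtz, Royer); the direction from Q1 to `P = PSPACE` is the new one.

The definitions below restate, word for word, the ones used in the proof.
-/

namespace Pool.Agent.Results.MP_88f784_lc.EquivPSPACE

open Turing

/-- A function on bit strings is polynomial-time computable: some Turing machine (in the sense of
Mathlib) computes it in polynomially many steps. -/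
def PolyTime (f : List Bool → List Bool) : Prop :=
  Nonempty (TM2ComputableInPolyTime (id : List Bool → List Bool) (id : List Bool → List Bool) f)

/-- `f` is a reduction of `A` to `B`. -/
def IsReduction (A B : Set (List Bool)) (f : List Bool → List Bool) : Prop :=
  PolyTime f ∧ ∀ x, x ∈ A ↔ f x ∈ B

/-- `f` is injective, and a polynomial-time algorithm `r` recognises and inverts its values:
`r (f x)` is the letter `true` followed by `x`, and `r y` is the empty string if `y` is not in the
range of `f`. -/
def PInvertible (f : List Bool → List Bool) : Prop :=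
  Function.Injective f ∧ ∃ r : List Bool → List Bool, PolyTime r ∧ (∀ x, r (f x) = true :: x) ∧
    ∀ y, y ∉ Set.range f → r y = []

/-- `f` is length nondecreasing. -/
def LengthNondecreasing (f : List Bool → List Bool) : Prop := ∀ x, x.length ≤ (f x).length

/-- `A` and `B` are `p`-isomorphic. -/
def PIsomorphic (A B : Set (List Bool)) : Prop :=
  ∃ h h' : List Bool → List Bool, PolyTime h ∧ PolyTime h' ∧ (∀ x, h' (h x) = x) ∧
    (∀ y, h (h' y) = y) ∧ ∀ x, x ∈ A ↔ h x ∈ B

/-- The statement in question Q1. -/
def Q1 : Prop := ∀ A B : Set (List Bool),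
  (∃ f, IsReduction A B f ∧ Function.Injective f ∧ LengthNondecreasing f ∧ PInvertible f) →
  (∃ g, IsReduction B A g ∧ Function.Injective g ∧ LengthNondecreasing g ∧ PInvertible g) →
  PIsomorphic A B

/-- The class `P`. -/
def InP (L : Set (List Bool)) : Prop :=
  ∃ V : List Bool → List Bool, PolyTime V ∧ ∀ x, x ∈ L ↔ V x = [true]

/-- The class `PSPACE`: `L` is decided by a (deterministic) machine such that, on input `x`, in
every configuration reached the length of every stack is at most `p |x|`, for a polynomial `p`. -/
def InPSPACE (L : Set (List Bool)) : Prop :=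
  ∃ (tm : FinTM2) (ein : tm.Γ tm.k₀ ≃ Bool) (eout : tm.Γ tm.k₁ ≃ Bool) (p : Polynomial ℕ),
    ∀ x : List Bool,
      (∃ (n : ℕ) (b : Bool), (b = true ↔ x ∈ L) ∧
        (flip bind tm.step)^[n] (some (initList tm (x.map ein.symm))) =
          some (haltList tm [eout.symm b])) ∧
      ∀ (i : ℕ) (c : tm.Cfg),
        (flip bind tm.step)^[i] (some (initList tm (x.map ein.symm))) = some c →
          ∀ k, (c.stk k).length ≤ p.eval x.length

/-- The implication in Q1 holds if and only if `P = PSPACE`. -/
theorem result : Q1 ↔ ∀ L : Set (List Bool), InPSPACE L ↔ InP L :=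
  Pool.Agent.NPC.PIso.Q1_iff

end Pool.Agent.Results.MP_88f784_lc.EquivPSPACE
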